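import Pool.Agent.helper37.NG.Spec

/-!
# Project NG (MP_7e34bc_co, Q2), row RT3 (helper67)
-/

set_option autoImplicit false

namespace Pool.Agent.helper37.NG

open Finset Pool.Agent.NK Pool.Agent.helper37.NF

private theorem RT3_A (n k : ℕ) :
    (n.choose k : ℝ) * ((n : ℝ) + 1) = ((k : ℝ) + 1) * ((n + 1).choose (k + 1) : ℝ) := by
  have h := Nat.add_one_mul_choose_eq n k
  have h' : (((n + 1) * n.choose k : ℕ) : ℝ) = (((n + 1).choose (k + 1) * (k + 1) : ℕ) : ℝ) := by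
    rw [h]
  push_cast at h'
  linarith

private theorem RT3_B (n k : ℕ) (hk : k ≤ n + 1) :
    (n.choose k : ℝ) * ((n : ℝ) + 1) = ((n : ℝ) + 1 - k) * ((n + 1).choose k : ℝ) := by
  have h := Nat.choose_mul_succ_eq n k
  have h' : ((n.choose k * (n + 1) : ℕ) : ℝ) = (((n + 1).choose k * (n + 1 - k) : ℕ) : ℝ) := by
    rw [h]
  rw [Nat.cast_mul, Nat.cast_mul, Nat.cast_sub hk] at h'
  push_cast at h'
  linarith

theorem RT3 : RT3_stmt := by
  intro n t ht hn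
  obtain ⟨s, rfl⟩ : ∃ s, t = s + 3 := ⟨t - 3, by omega⟩
  obtain ⟨m, rfl⟩ : ∃ m, n = m + s + 7 := ⟨n - s - 7, by omega⟩
  have e1 : m + s + 7 - 3 = m + s + 4 := by omega
  have e2 : m + s + 7 - 4 = m + s + 3 := by omega
  have e3 : s + 3 - 1 = s + 2 := by omega
  have e4 : s + 3 - 3 = s := by omega
  rw [e1, e2, e3, e4]
  have a1 := RT3_A (m + s + 6) (s + 2)
  have a2 := RT3_A (m + s + 5) (s + 1)
  have a3 := RT3_A (m + s + 4) s
  have b1 := RT3_B (m + s + 4) (s + 2) (by omega)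
  have b2 := RT3_B (m + s + 5) (s + 2) (by omega)
  have b3 := RT3_B (m + s + 3) s (by omega)
  push_cast at a1 a2 a3 b1 b2 b3 ⊢
  have h2 : ((m + s + 4).choose s : ℝ) * (((m : ℝ) + s + 7) * (m + s + 7 - 1) * (m + s + 7 - 2)) =
      ((s : ℝ) + 3) * ((s : ℝ) + 3 - 1) * ((s : ℝ) + 3 - 2) * ((m + s + 7).choose (s + 3) : ℝ) := by
    calc ((m + s + 4).choose s : ℝ) * (((m : ℝ) + s + 7) * (m + s + 7 - 1) * (m + s + 7 - 2))
        = (((m + s + 4).choose s : ℝ) * ((m : ℝ) + s + 4 + 1)) * (m + s + 5 + 1) * (m + s + 6 + 1) := by ring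
      _ = ((s : ℝ) + 1) * (((m + s + 5).choose (s + 1) : ℝ) * ((m : ℝ) + s + 5 + 1)) * (m + s + 6 + 1) := by
          rw [a3]
          ring
      _ = ((s : ℝ) + 1) * (s + 1 + 1) * (((m + s + 6).choose (s + 2) : ℝ) * ((m : ℝ) + s + 6 + 1)) := by
          rw [a2]
          ring
      _ = ((s : ℝ) + 3) * ((s : ℝ) + 3 - 1) * ((s : ℝ) + 3 - 2) * ((m + s + 7).choose (s + 3) : ℝ) := by
          rw [a1]
          ring
  refine ⟨?_, h2, ?_⟩
  · calc ((m + s + 4).choose (s + 2) : ℝ) * (((m : ℝ) + s + 7) * (m + s + 7 - 1) * (m + s + 7 - 2))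
        = (((m + s + 4).choose (s + 2) : ℝ) * ((m : ℝ) + s + 4 + 1)) * (m + s + 5 + 1) * (m + s + 6 + 1) := by ring
      _ = ((m : ℝ) + s + 4 + 1 - (s + 2)) *
          (((m + s + 5).choose (s + 2) : ℝ) * ((m : ℝ) + s + 5 + 1)) * (m + s + 6 + 1) := by
          rw [b1]
          ring
      _ = ((m : ℝ) + s + 4 + 1 - (s + 2)) * ((m : ℝ) + s + 5 + 1 - (s + 2)) *
          (((m + s + 6).choose (s + 2) : ℝ) * ((m : ℝ) + s + 6 + 1)) := by
          rw [b2]
          ring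
      _ = ((s : ℝ) + 3) * ((m : ℝ) + s + 7 - (s + 3)) * ((m : ℝ) + s + 7 - (s + 3) - 1) *
          ((m + s + 7).choose (s + 3) : ℝ) := by
          rw [a1]
          ring
  · calc ((m + s + 3).choose s : ℝ) *
          (((m : ℝ) + s + 7) * (m + s + 7 - 1) * (m + s + 7 - 2) * (m + s + 7 - 3))
        = (((m + s + 3).choose s : ℝ) * ((m : ℝ) + s + 3 + 1)) *
          (((m : ℝ) + s + 7) * (m + s + 7 - 1) * (m + s + 7 - 2)) := by ring
      _ = ((m : ℝ) + s + 3 + 1 - s) * (((m + s + 4).choose s : ℝ) *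
          (((m : ℝ) + s + 7) * (m + s + 7 - 1) * (m + s + 7 - 2))) := by
          rw [b3]
          ring
      _ = ((s : ℝ) + 3) * ((s : ℝ) + 3 - 1) * ((s : ℝ) + 3 - 2) * ((m : ℝ) + s + 7 - (s + 3)) *
          ((m + s + 7).choose (s + 3) : ℝ) := by
          rw [h2]
          ring

end Pool.Agent.helper37.NG
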